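import Pool.Agent.Run7.h596.Final
import Pool.Agent.Run7.h596.Exist

/-! Partial answer to the question on `M ⊗ M*` for odd-dimensional indecomposable modules in
characteristic two: the modules that can be reduced to dimension one by Tate cohomology at
central involutions. -/

set_option autoImplicit false
open scoped TensorProduct

namespace Pool.Agent.Results.MP_8096dd_al.TateReduction

/-- Let `k` be algebraically closed of characteristic two, `G` a group and `V` a
finite-dimensional representation with `TateTame G ∅ V ρ`: it can be reduced to dimension one by
steps `V ↦ ker (z - 1) / im (z - 1)`, where `z ^ 2 = 1` on the current module and either `z` acted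
centrally on the last module that was declared indecomposable, or `z` acts centrally on the current
module `V` and `(z - 1) X` has even dimension for all indecomposable summands `X` of `V` of even
dimension (passing to subgroups is allowed as well). Then `V` has odd dimension and `V ⊗ V*` is
the direct sum of a trivial one-dimensional module and of indecomposable modules
of dimension divisible by four. -/
theorem result (G : Type) [Group G] (k : Type) [Field k] [IsAlgClosed k] [CharP k 2]
    (V : Type) [AddCommGroup V] [Module k V] [FiniteDimensional k V]
    (ρ : Representation k G V) (hρ : Run7.h596.TateTame G ∅ V ρ) :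
    Odd (Module.finrank k V) ∧
    ∃ (L : Submodule k (V ⊗[k] Module.Dual k V)) (n : ℕ)
      (W : Fin n → Submodule k (V ⊗[k] Module.Dual k V)),
      Module.finrank k L = 1 ∧
      (∀ g : G, ∀ x ∈ L,
        (Representation.tprod ρ (Representation.dual ρ)) g x = x) ∧
      (∀ i, ∀ g : G, ∀ x ∈ W i,
        (Representation.tprod ρ (Representation.dual ρ)) g x ∈ W i) ∧
      (∀ i, W i ≠ ⊥ ∧ 4 ∣ Module.finrank k (W i) ∧
        ∀ A B : Submodule k (V ⊗[k] Module.Dual k V),
          (∀ g : G, ∀ x ∈ A,
            (Representation.tprod ρ (Representation.dual ρ)) g x ∈ A) →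
          (∀ g : G, ∀ x ∈ B,
            (Representation.tprod ρ (Representation.dual ρ)) g x ∈ B) →
          A ⊓ B = ⊥ → A ⊔ B = W i → A = ⊥ ∨ B = ⊥) ∧
      iSupIndep W ∧ IsCompl L (⨆ i, W i) := by
  obtain ⟨h1, _, h3⟩ := Run7.h596.main_ind G ∅ V ρ hρ inferInstance
    (fun z hz => absurd hz (Set.notMem_empty z))
  exact ⟨h1, Run7.h596.final_of_strong G k V ρ h1 (fun f hf =>
    h3 f hf (fun z hz => absurd hz (Set.notMem_empty z)))⟩

end Pool.Agent.Results.MP_8096dd_al.TateReduction
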